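import Pool.Agent.MP_ed9623_an.H77.SpecZ

/-! If the equation holds across the boundary, the two solutions coincide. -/

open MeasureTheory Filter Topology Set
open scoped ContDiff InnerProductSpace

namespace Pool.Agent.MP_ed9623_an.H77

open H64

namespace UcP

theorem loc (hG : GpS) (hF : FmS) {Ω U : Set P} {x τ y : P} {γ : ℝ → ℝ} {σ r R : ℝ}
    {g : Fin 2 → P → ℝ} {a w : ℝ → E6} {I : Set ℝ} (hc : Ch Ω x τ γ σ r) (h : Pv Ω g R a w)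
    (hU : IsOpen U) (hy : y ∈ U) (hs : U ⊆ Thi x τ γ ⁻¹' Q (r / 2))
    (he : ∀ t ∈ I, ∀ ζ, (∀ j, Test U (ζ j)) →
      E1 (fun _ => 0) (vl (a t)) (vl (w t)) (gj (w t)) (vl (deriv w t)) ζ) :
    ∃ (N : Set P) (M : ℝ), IsOpen N ∧ y ∈ N ∧ 0 ≤ M ∧
      ∀ t ∈ I, ∃ F, Ht N M (vl (w t)) (gj (w t)) (vl (deriv w t)) F := by
  obtain ⟨δ, δ0, hδ⟩ := Metric.nhds_basis_closedBall.mem_iff.1 (hU.mem_nhds hy)
  obtain ⟨M, M0, hM⟩ := hG Ω x τ γ σ r R hc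
  obtain ⟨M', M1, hM'⟩ := hF _ (Metric.ball y δ) (Metric.closedBall y δ) M R
    (hc.nhds (half_pos hc.r0)).1 Metric.isOpen_ball (isCompact_closedBall y δ)
    Metric.ball_subset_closedBall (hδ.trans hs) M0
  refine ⟨_, M', Metric.isOpen_ball, Metric.mem_ball_self δ0, M1, fun t ht =>
    hM' (vl (a t)) _ _ (gj (a t)) _ (mem_VZ.1 (h.ma t)).1 (mem_VZ.1 (h.mw t)).1 (m2_vl _)
      (fun j => ⟨((nb_norm (w t) j).1).trans (h.nw t), fun i =>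
        ((nb_norm (w t) j).2 i).trans (h.nw t)⟩)
      ((hM _ _ _ (h.p1 t)).1.half (hM _ _ _ (h.p2 t)).1) fun ζ hζ => he t ht ζ fun j =>
        (hζ j).mono (Metric.ball_subset_closedBall.trans hδ)⟩

end UcP

theorem rowUcP : OfUcP := by
  intro hG hF hU Ω x τ γ r R ε g a w I hΩ hcon hc h hI hε he t ht
  obtain ⟨r₁, r0, -, h1⟩ := hc.small hε
  obtain ⟨ρ, ρ0, ρ1, ρ2⟩ : ∃ ρ, 0 < ρ ∧ ρ ≤ r₁ ∧ ρ ≤ r / 2 :=
    ⟨_, lt_min r0 (half_pos hc.r0), min_le_left _ _, min_le_right _ _⟩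
  have ρ3 : ρ ≤ r := by linarith [hc.r0]
  have oB := (hc.nhds ρ0).1
  have hT : ∀ p ∈ Q ρ, Th x τ γ p ∈ Thi x τ γ ⁻¹' Q ρ := fun p hp => by
    rwa [mem_preimage, Thi_Th hc.un]
  have eB : Thi x τ γ ⁻¹' Q ρ = Th x τ γ '' Q ρ := Subset.antisymm
    (fun q hq => ⟨_, hq, Th_Thi hc.un q⟩) (image_subset_iff.2 hT)
  have q1 : ∀ s : ℝ, |s| < ρ → ((0, s) : P) ∈ Q ρ := fun s hs => mem_Q.2 ⟨by simpa using ρ0, hs⟩
  have p1 := q1 (ρ / 2) (abs_lt.2 ⟨by linarith, by linarith⟩)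
  have p2 := q1 (-(ρ / 2)) (abs_lt.2 ⟨by linarith, by linarith⟩)
  refine eq_zero_of_van (h.mw t).1 fun j => Van.mono (hU I (Ω ∪ Thi x τ γ ⁻¹' Q ρ) w hI
    (hΩ.union oB) ?_ h.sw (fun s => ⟨(h.mw s).1.1, fun ix => ((h.mw s).1.2 ix).mono
      (compl_subset_compl.2 (subset_univ _))⟩) ?_ ?_ t ht j) subset_union_left
  · refine hcon.union _ ((hc.mem _ (Q_mono ρ3 p1)).2 (half_pos ρ0)) (hT _ p1) ?_
    rw [eB, Q_eq_ball]
    exact (convex_ball _ _).isPreconnected.image _ (sm_Th hc.gam x τ).continuous.continuousOn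
  · rintro y (hy | hy)
    · obtain ⟨r', hc'⟩ := exists_ch hΩ hy
      have := hc'.nhds (half_pos hc'.r0)
      exact UcP.loc hG hF hc' h (hΩ.inter this.1) ⟨hy, mem_of_mem_nhds this.2⟩ inter_subset_right
        fun s _ ζ hζ => h.e1 s ζ fun j => (hζ j).mono inter_subset_left
    · exact UcP.loc hG hF hc h oB hy (preimage_mono (Q_mono ρ2)) fun s hs ζ hζ =>
        he s hs ζ fun j => (hζ j).mono ((preimage_mono (Q_mono ρ1)).trans h1)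
  · obtain ⟨δ, δ0, hδ⟩ := Metric.isOpen_iff.1
      ((isOpen_low 0 ρ).preimage (sm_Thi hc.gam x τ).continuous) (Th x τ γ (0, -(ρ / 2))) (by
        rw [mem_preimage, Thi_Th hc.un]
        exact ⟨p2, neg_neg_iff_pos.2 (half_pos ρ0)⟩)
    refine ⟨_, .inr (hT _ p2), δ, δ0, fun s _ j => ((h.mw s).1.2 (j, none)).mono fun q hq hq' => ?_⟩
    have := hδ hq
    rw [← Th_Thi (x := x) (γ := γ) hc.un q] at hq'
    exact lt_asymm ((hc.mem _ (Q_mono ρ3 this.1)).1 hq') this.2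

end Pool.Agent.MP_ed9623_an.H77
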